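import Mathlib

/-! Boundary independent broadcasts: `alpha_bn(G) ≤ n - delta(G)` for every finite graph. -/

open Finset

namespace Pool.Agent.Results.MP_8bdd73_co.BnLeOrderMinusDelta

section Defs

variable {V : Type*} (G : SimpleGraph V)

/-- `x` is within distance `f v` of `v`, that is `x ∈ N_f(v)`. -/
def Hears (f : V → ℕ) (v x : V) : Prop := G.edist v x ≤ (f v : ℕ∞)

/-- `x` is at distance exactly `f v` from `v`, that is `x ∈ B_f(v)`. -/
def OnBoundary (f : V → ℕ) (v x : V) : Prop := G.edist v x = (f v : ℕ∞)

/-- Broadcasts on a possibly disconnected graph: at an isolated vertex the value is `1`; at any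
other vertex `v` the value is at most the eccentricity of `v` in its component, that is, some
vertex `u` of the component of `v` has `f v ≤ d(v,u)`. -/
def IsBroadcast (f : V → ℕ) : Prop :=
  ∀ v, ((∀ w, ¬ G.Adj v w) ∧ f v = 1) ∨
    ((∃ w, G.Adj v w) ∧ ∃ u, G.Reachable v u ∧ f v ≤ G.dist v u)

/-- Boundary independence: a vertex hearing `f` from two distinct broadcasting vertices lies on
the boundary of both. -/
def BnIndep (f : V → ℕ) : Prop :=
  ∀ u v, u ≠ v → 0 < f u → 0 < f v → ∀ x, Hears G f u x → Hears G f v x →
    OnBoundary G f u x ∧ OnBoundary G f v x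

/-- The set of weights of boundary independent broadcasts. -/
def weights [Fintype V] : Set ℕ :=
  {w | ∃ f : V → ℕ, IsBroadcast G f ∧ BnIndep G f ∧ ∑ v, f v = w}

/-- The boundary independence number. -/
noncomputable def alphaBn [Fintype V] : ℕ := sSup (weights G)

end Defs

section Aux

variable {V : Type*} {G : SimpleGraph V}

/-- vertices at every smaller distance -/
lemma exists_dist_eq {v u : V} (h : G.Reachable v u) (j : ℕ) (hj : j ≤ G.dist v u) :
    ∃ w, G.Reachable v w ∧ G.dist v w = j := by
  obtain ⟨p, hp⟩ := h.exists_walk_length_eq_dist
  refine ⟨p.getVert j, ⟨p.take j⟩, ?_⟩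
  have hjl : j ≤ p.length := by omega
  have h1 : G.dist v (p.getVert j) ≤ j := by
    have := G.dist_le (p.take j)
    rw [SimpleGraph.Walk.take_length] at this
    omega
  have h2 : G.dist (p.getVert j) u ≤ p.length - j := by
    have := G.dist_le (p.drop j)
    rw [SimpleGraph.Walk.drop_length] at this
    exact this
  have h3 : G.dist v u ≤ G.dist v (p.getVert j) + G.dist (p.getVert j) u := by
    have : G.Reachable v (p.getVert j) := ⟨p.take j⟩
    exact this.dist_triangle_left u
  omega

lemma edist_eq_dist {v u : V} (h : G.Reachable v u) : G.edist v u = (G.dist v u : ℕ∞) :=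
  h.coe_dist_eq_edist.symm

end Aux

section Main

variable {V : Type*} [Fintype V] {G : SimpleGraph V}

/-- interior of the ball of `v` -/
noncomputable def inter (G : SimpleGraph V) (f : V → ℕ) (v : V) : Finset V :=
  Set.Finite.toFinset (s := {x | G.edist v x < (f v : ℕ∞)}) (Set.toFinite _)

lemma mem_inter {f : V → ℕ} {v x : V} : x ∈ inter G f v ↔ G.edist v x < (f v : ℕ∞) := by
  simp [inter]

lemma inter_not_hears {f : V → ℕ} (hb : BnIndep G f) {u v x : V} (huv : u ≠ v) (hu : 0 < f u)
    (hx : x ∈ inter G f v) : ¬ Hears G f u x := by
  intro h
  have hv : 0 < f v := by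
    rw [mem_inter] at hx
    by_contra h0
    have : f v = 0 := by omega
    rw [this] at hx
    simp at hx
  have := (hb u v huv hu hv x h (le_of_lt (mem_inter.1 hx))).2
  rw [mem_inter] at hx
  unfold OnBoundary at this
  exact absurd this (ne_of_lt hx)

lemma inter_disj {f : V → ℕ} (hb : BnIndep G f) {u v : V} (huv : u ≠ v) :
    Disjoint (inter G f u) (inter G f v) := by
  rw [Finset.disjoint_left]
  intro x hxu hxv
  have hu : 0 < f u := by
    rw [mem_inter] at hxu
    by_contra h0
    have : f u = 0 := by omega
    rw [this] at hxu
    simp at hxu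
  exact inter_not_hears hb huv hu hxv (le_of_lt (mem_inter.1 hxu))

lemma card_inter_ge {f : V → ℕ} (hf : IsBroadcast G f) (v : V) : f v ≤ (inter G f v).card := by
  classical
  rcases hf v with ⟨_, h1⟩ | ⟨_, u, hu, hfu⟩
  · rw [h1]
    apply Finset.card_pos.2
    refine ⟨v, ?_⟩
    rw [mem_inter, h1]
    simp
  · have : ∀ j : Fin (f v), ∃ w, G.Reachable v w ∧ G.dist v w = j := fun j =>
      exists_dist_eq hu j (by omega)
    choose g hg hg' using this
    have hinj : Function.Injective g := by
      intro i j hij
      have := hg' i
      rw [hij, hg' j] at this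
      exact Fin.ext this.symm
    calc f v = (Finset.univ.image g).card := by
            rw [Finset.card_image_of_injective _ hinj]; simp
      _ ≤ _ := by
            apply Finset.card_le_card
            intro x hx
            rw [Finset.mem_image] at hx
            obtain ⟨i, _, rfl⟩ := hx
            rw [mem_inter, edist_eq_dist (hg i), hg' i]
            exact_mod_cast i.2

lemma card_inter_ge_big [DecidableRel G.Adj] {f : V → ℕ} (hf : IsBroadcast G f) (v : V)
    (hv : 2 ≤ f v) : G.degree v + f v ≤ (inter G f v).card + 1 := by
  classical
  rcases hf v with ⟨_, h1⟩ | ⟨_, u, hu, hfu⟩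
  · omega
  · have : ∀ j : Fin (f v - 2), ∃ w, G.Reachable v w ∧ G.dist v w = j + 2 := fun j =>
      exists_dist_eq hu _ (by omega)
    choose g hg hg' using this
    have hinj : Function.Injective g := by
      intro i j hij
      have := hg' i
      rw [hij, hg' j] at this
      exact Fin.ext (by omega)
    have hd1 : Disjoint (Finset.univ.image g) (insert v (G.neighborFinset v)) := by
      rw [Finset.disjoint_left]
      intro x hx hx2
      rw [Finset.mem_image] at hx
      obtain ⟨i, _, rfl⟩ := hx
      rw [Finset.mem_insert, SimpleGraph.mem_neighborFinset] at hx2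
      rcases hx2 with h | h
      · have := hg' i
        rw [h] at this
        simp at this
      · have := hg' i
        rw [SimpleGraph.dist_eq_one_iff_adj.2 h] at this
        omega
    have hsub : (Finset.univ.image g) ∪ (insert v (G.neighborFinset v)) ⊆ inter G f v := by
      intro x hx
      rw [Finset.mem_union] at hx
      rw [mem_inter]
      rcases hx with hx | hx
      · rw [Finset.mem_image] at hx
        obtain ⟨i, _, rfl⟩ := hx
        rw [edist_eq_dist (hg i), hg' i]
        have := i.2
        exact_mod_cast (by omega : (i : ℕ) + 2 < f v)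
      · rw [Finset.mem_insert, SimpleGraph.mem_neighborFinset] at hx
        rcases hx with h | h
        · rw [h]; simp; omega
        · rw [SimpleGraph.edist_eq_one_iff_adj.2 h]
          exact_mod_cast (by omega : 1 < f v)
    have h2 := Finset.card_le_card hsub
    rw [Finset.card_union_of_disjoint hd1, Finset.card_image_of_injective _ hinj,
      Finset.card_insert_of_notMem (by simp), SimpleGraph.card_neighborFinset_eq_degree] at h2
    simp at h2
    omega

theorem main [DecidableRel G.Adj] {f : V → ℕ} (hf : IsBroadcast G f) (hb : BnIndep G f) :
    ∑ v, f v + G.minDegree ≤ Fintype.card V := by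
  classical
  by_cases hbig : ∃ v, 2 ≤ f v
  · obtain ⟨v, hv⟩ := hbig
    rcases hf v with ⟨_, h1⟩ | ⟨_, u, hu, hfu⟩
    · omega
    · obtain ⟨w, hw, hw'⟩ := exists_dist_eq hu (f v) hfu
      have hwS : w ∉ Finset.univ.biUnion (inter G f) := by
        intro h
        rw [Finset.mem_biUnion] at h
        obtain ⟨z, _, hz⟩ := h
        by_cases hzv : v = z
        · subst hzv
          rw [mem_inter, edist_eq_dist hw, hw'] at hz
          exact lt_irrefl _ hz
        · refine inter_not_hears hb hzv (by omega) hz ?_
          unfold Hears
          rw [edist_eq_dist hw, hw']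
      have h3 : (insert w (Finset.univ.biUnion (inter G f))).card ≤ Fintype.card V :=
        Finset.card_le_univ _
      rw [Finset.card_insert_of_notMem hwS, Finset.card_biUnion (fun a _ b _ hab =>
        inter_disj hb hab)] at h3
      have h4 : ∑ z, f z ≤ ∑ z ∈ Finset.univ.erase v, (inter G f z).card + f v := by
        rw [← Finset.sum_erase_add _ _ (Finset.mem_univ v)]
        apply Nat.add_le_add_right
        exact Finset.sum_le_sum fun z _ => card_inter_ge hf z
      have h5 : ∑ z, (inter G f z).card =
          ∑ z ∈ Finset.univ.erase v, (inter G f z).card + (inter G f v).card :=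
        (Finset.sum_erase_add _ _ (Finset.mem_univ v)).symm
      have h6 := card_inter_ge_big hf v hv
      have h7 := G.minDegree_le_degree v
      omega
  · push Not at hbig
    by_cases hpos : ∃ v, 0 < f v
    · obtain ⟨v, hv⟩ := hpos
      have h1 : ∀ z, f z = if 0 < f z then 1 else 0 := by
        intro z
        have := hbig z
        split_ifs <;> omega
      have h2 : ∑ z, f z = (Finset.univ.filter fun z => 0 < f z).card := by
        rw [Finset.card_filter]
        exact Finset.sum_congr rfl fun z _ => h1 z
      have hdis : Disjoint (Finset.univ.filter fun z => 0 < f z) (G.neighborFinset v) := by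
        rw [Finset.disjoint_left]
        intro x hx hx2
        rw [SimpleGraph.mem_neighborFinset] at hx2
        have hx3 : 0 < f x := (Finset.mem_filter.1 hx).2
        have hfx : f x = 1 := by have := hbig x; omega
        have hfv : f v = 1 := by have := hbig v; omega
        have := (hb v x hx2.ne hv hx3 x (by
          unfold Hears
          rw [SimpleGraph.edist_eq_one_iff_adj.2 hx2, hfv]; simp) (by
          unfold Hears; simp)).2
        unfold OnBoundary at this
        rw [hfx] at this
        simp at this
      have h3 := Finset.card_le_univ ((Finset.univ.filter fun z => 0 < f z) ∪ G.neighborFinset v)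
      rw [Finset.card_union_of_disjoint hdis, SimpleGraph.card_neighborFinset_eq_degree] at h3
      have h7 := G.minDegree_le_degree v
      omega
    · push Not at hpos
      have : ∑ v, f v = 0 := by
        apply Finset.sum_eq_zero
        intro v _
        have := hpos v
        omega
      rw [this, Nat.zero_add]
      rcases isEmpty_or_nonempty V with he | he
      · simp [SimpleGraph.minDegree]
      · exact G.minDegree_lt_card.le

end Main

/-- For every finite graph `G` (connected or not) the boundary independence number is attained
and is at most the order minus the minimum degree. -/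
theorem result {V : Type*} [Fintype V] (G : SimpleGraph V) [DecidableRel G.Adj] :
    IsGreatest (weights G) (alphaBn G) ∧ alphaBn G ≤ Fintype.card V - G.minDegree := by
  classical
  have hne : (weights G).Nonempty := by
    refine ⟨_, fun v => if ∀ w, ¬ G.Adj v w then 1 else 0, ?_, ?_, rfl⟩
    · intro v
      by_cases h : ∀ w, ¬ G.Adj v w
      · left
        exact ⟨h, by simp [h]⟩
      · right
        have h' := h
        push Not at h'
        exact ⟨h', v, SimpleGraph.Reachable.refl v, by simp [h]⟩
    · have key : ∀ u x, (0 < if ∀ w, ¬ G.Adj u w then 1 else 0) →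
          Hears G (fun v => if ∀ w, ¬ G.Adj v w then 1 else 0) u x → u = x := by
        intro u x hu hux
        by_cases h : ∀ w, ¬ G.Adj u w
        · unfold Hears at hux
          simp only [h, not_false_eq_true, implies_true, if_true, Nat.cast_one] at hux
          rw [SimpleGraph.edist_le_one_iff_adj_or_eq] at hux
          rcases hux with h1 | h1
          · exact absurd h1 (h x)
          · exact h1
        · simp [h] at hu
      intro u v huv hu hv x hux hvx
      exact absurd ((key u x hu hux).trans (key v x hv hvx).symm) huv
  have hbd : BddAbove (weights G) := by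
    refine ⟨Fintype.card V, ?_⟩
    rintro w ⟨f, hf, hb, rfl⟩
    have := main hf hb
    omega
  have hmem : alphaBn G ∈ weights G := Nat.sSup_mem hne hbd
  refine ⟨⟨hmem, fun w hw => le_csSup hbd hw⟩, ?_⟩
  obtain ⟨f, hf, hb, hw⟩ := hmem
  have := main hf hb
  omega

end Pool.Agent.Results.MP_8bdd73_co.BnLeOrderMinusDelta
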